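import Mathlib
import Pool.Agent.Q64.M.Dg
import Pool.Agent.Q64.L.InstC

/-!
# The noncommutative standard conjecture D for the tensor products of arbitrary dg categories with
the abelian varieties of almost all slope types of all CM fields

Let `K i` (`i` in a finite set) be CM fields of degree `2 g i`. Nothing is assumed about their
Galois groups. They are pairwise independent: for `i ≠ k` and all complex embeddings `φ` of `K i`
and `ψ` of `K k` some automorphism of `ℂ` is the identity on `φ (K i)` and the complex conjugation
on `ψ (K k)` (this is no condition if there is only one field). We fix an isomorphism `ν` of the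
algebraic closure of `ℚ_p` with `ℂ`; it defines a `p`-adic valuation of `ℂ`, with the value one at
`p`. Let `M i` be a function with nonzero integral values, all of which divide `n i`, on the
complex embeddings of `K i`, invariant under complex conjugation. A CM type `Φ i` of `K i` (a
choice of one element out of each complex conjugate pair of embeddings; there are `2 ^ (g i)`
types), `M i` and a real number `κ ≠ 0` prescribe the slopes `(a + κ M) / 2` (at the embeddings in
`Φ i`) and `(a - κ M) / 2` (outside of `Φ i`) of a Weil number for `p ^ a` in `K i` (`HasType`).
The case `M = 1`, `κ = a` is the case of ordinary abelian varieties; the assumption on `M` says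
that `a / 2` is not a slope.

There are `2 ^ (∑ i, g i)` families of CM types `Φ i` of the fields `K i`. A family is exceptional
(`exceptionalFamilies ν K M`) if the following statement (`Holds`) is false for it. Let `π i` be
Weil numbers for `q = p ^ a` that generate the fields `K i` and have the slope types `Φ i`, `M i`,
and let `f i` be monic polynomials whose complex roots are conjugates of `π i` (`IsPolyOf`), for
instance the characteristic polynomials of Frobenius of the abelian varieties in the isogeny
classes of the `π i` over the field with `q` elements. Let `A` be an abelian variety over the field
with `Q = q ^ s` elements which is isogenous to a product of powers of abelian varieties coming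
from the field with `q` elements, with characteristic polynomials `f i`, and let `ℰ` be **any**
smooth proper dg category over the field with `Q` elements such that the eigenvalues `ρ` of the
cyclotomic Frobenius on `TP_0(ℰ)` and `TP_1(ℰ)` (with `p` inverted) are algebraic numbers, and they
and their conjugates are unrelated to the fields `K i` (`UnrelatedTo`): a function `n` on the
complex embeddings of `K i` with `n (conj φ) = - n φ` which is invariant under all automorphisms of
`ℂ` that fix a power of `ρ` is zero. This is so if for each embedding `ψ` of `K i` some
automorphism which fixes a power of `ρ` is the complex conjugation on `ψ (K i)`: for instance, if a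
power of `ρ` lies in a field linearly disjoint from the normal closures of the `K i`, or in a
totally real field. It is also so if the degree of `ρ` is less than twice the dimension of each
nonzero space of functions `n` stable under all automorphisms of `ℂ`.

**The noncommutative standard conjecture of type D (the assertion of Q1) is true for `perf(A) ⊗ ℰ`
if and only if it is true for `ℰ`.** More precisely, `K_0(perf(A) ⊗ ℰ)_ℚ` modulo homological
equivalence is the direct sum of the products of finitely many products of divisors on `A` with
`K_0(ℰ)_ℚ` modulo homological equivalence. For instance, the assertion is true for `perf(A) ⊗ ℰ` if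
`ℰ` has a full exceptional collection, or if `TP_0(ℰ)` is spanned by classes of objects.

In the starting files there are theorems of this kind for the dg categories whose noncommutative
motive is a direct summand of the motive of a smooth projective variety; they use the Frobenius
endomorphism of this variety. A general smooth proper dg category has no Frobenius endomorphism:
the cyclotomic Frobenius is not induced by an endomorphism of `ℰ`. Here only the Frobenius
endomorphism of `A` is used, and `ℰ` is arbitrary.

What is used of `A` are known theorems (`IsAbelian`): `H(A)` is generated by `H^1`, Frobenius is
diagonalizable on `H^1` (Weil), the theorem of Tate on divisors, and the nilpotence of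
homologically trivial correspondences (Kimura). The topological periodic cyclic homology `R` of `ℰ`
and `perf(A) ⊗ ℰ` is modelled by `RelData`: the groups of bidegree `(i, j)` are `TP_(2 j - i)(ℰ)`
and `TP_(2 j - i)(perf(A) ⊗ ℰ)`, with `p` inverted (the first part of this group, for the dg
category of a variety `X`, is `H^i(X)(j)`). The formal properties in `IsRel`: the product with a
class of codimension `c` on `A` (an element of `K_0(A)_ℚ = CH(A)_ℚ`) has the bidegree `(2 c, c)`;
the push-forward to `ℰ`, the projection formula and the operation of the correspondences of `A`.
The operator `frobN` is `Q ^ j` times the cyclotomic Frobenius of `ℰ`, and `frobM` is `Q ^ j` times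
the cyclotomic Frobenius of `perf(A) ⊗ ℰ`, composed with the inverse of the operation of the
Frobenius endomorphism of `A`. So the elements in `InvN`, `InvM` of bidegree `(2 j, j)` are the
elements of `TP_0` which are fixed by the cyclotomic Frobenius. The theory `T` is `K_0` modulo
homological equivalence, in all the bidegrees `(2 j, j)`, with the injective map to `R`
(`IsCycles`), and `B` is the Euler pairing, for which the rules in `IsEulerPairing` hold.

The theorem bounds the number of the exceptional families: it is at most
`2 ^ (∑ i, g i) * ∑ i, C * (n i) ^ 2 * (1 + log (2 g i)) ^ 16 * min (N ^ 2 * D ^ (1 / 4) / √g, √g / q)`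
with an absolute constant `C`. Here, for `K = K i` and `g = g i`, `N` is the number of the CM
subfields of `K` (with `K`), `D = D i ≥ 1` is a bound for the degrees of the CM subfields of `K`
that are normal over `ℚ` with a nonabelian Galois group, and `q = q i` is any prime factor of `g`
(or `q = 1`). So the exceptional types are a proportion `O (n ^ 2 * g ^ (-1 / 4) * (log g) ^ 16)`
of all types of all CM fields with a bounded number of CM subfields,
`O (n ^ 2 * g ^ (-1 / 2) * (log g) ^ 16)` if the normal nonabelian ones have bounded degrees, and
`O (n ^ 2 * g ^ (-δ) * (log g) ^ 16)` for all CM fields, with any number of subfields, whose degree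
is divisible by a prime number `q ≥ g ^ (1 / 2 + δ)`. Some assumption is necessary: almost all
types of a multiquadratic CM field are degenerate. The counting part (the bound for the number of
the degenerate types) is the one of `AllCMFields` (MP_e12fcd_ag), by helper1 and others of this
team.

The proof. Suppose that the product of `ρ` and of some eigenvalues `φ (π i)` of `A`, no two of them
complex conjugate, is a power of `q`, up to a root of unity. For an automorphism `σ` of `ℂ` the
`p`-adic valuations of the images under `σ` give a linear relation between the signed weights
`± M i (σ φ)` whose right side is a function of the valuation of `σ ρ`. It does not change if `σ`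
is multiplied by an automorphism `τ` which fixes a power of `ρ`. The difference of the two
relations is homogeneous; if the types are not degenerate it is trivial, so that the differences of
the exponents of complex conjugate embeddings are invariant under `τ`. So they are zero, as `ρ` is
unrelated to the fields `K i`. It follows that, on the generalized eigenspace of Frobenius for the
power of `Q` in question in the cohomology or homology of the product of `A` with the other factor,
the correspondence on `A` given by the sum of the products of dual classes of products of divisors
acts as the identity: the Frobenius endomorphism of `A` satisfies there a power of the polynomial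
reciprocal to that of the Frobenius on the other factor, this polynomial is prime to the one whose
value on `H(A)` lies in the part generated by divisors, and the difference of the two
correspondences is nilpotent. So the elements of `TP_0(perf(A) ⊗ ℰ)` which are fixed by the
cyclotomic Frobenius, and the classes of the objects of `perf(A) ⊗ ℰ`, are the direct sums of the
products of finitely many products of divisors on `A` with those of `ℰ`, and the Euler pairings
correspond, up to the signs in the rules.
-/

set_option autoImplicit false

namespace Pool.Agent.Results.MP_28af06_ag.AllCMTypesDgCategories

open NumberField Module Pool.Agent.H204R3.CM Pool.Agent.H977R3.CM Pool.Agent.TH170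
  Pool.Agent.Y1.KN Pool.Agent.Y1.CT Pool.Agent.Q64.L Pool.Agent.Q64.M

/-- The statement `DgStandardDReduces` holds for all abelian varieties `A` whose Frobenius
eigenvalues are powers of conjugates of Weil numbers with the slope types `Φ i`, `M i`, and all dg
categories unrelated to the fields `K i`. -/
def Holds {p : ℕ} [Fact p.Prime] (ν : PadicAlgCl p ≃+* ℂ) {I : Type} (K : I → Type)
    [∀ i, Field (K i)] [∀ i, NumberField (K i)] [∀ i, IsCMField (K i)]
    (M : ∀ i, (K i →+* ℂ) → ℤ) (Φ : ∀ i, Set (K i →+* ℂ)) : Prop :=
  ForAllTypes ν K M (fun q f => DgStandardDReduces (UnrelatedRoots K) q f) Φ

/-- The exceptional families of CM types. -/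
def exceptionalFamilies {p : ℕ} [Fact p.Prime] (ν : PadicAlgCl p ≃+* ℂ) {I : Type} (K : I → Type)
    [∀ i, Field (K i)] [∀ i, NumberField (K i)] [∀ i, IsCMField (K i)]
    (M : ∀ i, (K i →+* ℂ) → ℤ) : Set (∀ i, Set (K i →+* ℂ)) :=
  {Φ | (∀ i, IsCMType (Φ i)) ∧ ¬ Holds ν K M Φ}

/-- **The noncommutative standard conjecture D holds for `perf(A) ⊗ ℰ` if and only if it holds for
`ℰ`, for the abelian varieties `A` of almost all slope types of all CM fields and all unrelated dg
categories.** -/
theorem result :
    ∃ C : ℝ, 0 ≤ C ∧ ∀ (p : ℕ) [Fact p.Prime] (ν : PadicAlgCl p ≃+* ℂ) (I : Type) [Fintype I]
      (K : I → Type) [∀ i, Field (K i)] [∀ i, NumberField (K i)] [∀ i, IsCMField (K i)]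
      (M : ∀ i, (K i →+* ℂ) → ℤ) (n g q : I → ℕ) (D : I → ℝ), PairwiseIndep K →
      (∀ i φ, M i (ComplexEmbedding.conjugate φ) = M i φ) → (∀ i, n i ≠ 0) →
      (∀ i φ, M i φ ∣ (n i : ℤ)) → (∀ i, finrank ℚ (K i) = 2 * g i) →
      (∀ i, q i ∣ g i ∧ (q i = 1 ∨ (q i).Prime)) → (∀ i, 1 ≤ D i) →
      (∀ (i : I) (L : IntermediateField ℚ (K i)), IsCMField L → IsGalois ℚ L →
        ¬ IsAbelianGalois ℚ L → (finrank ℚ L : ℝ) ≤ D i) →
      ((exceptionalFamilies ν K M).ncard : ℝ) ≤
        2 ^ (∑ i, g i) * ∑ i, C * (n i : ℝ) ^ 2 * ((1 + Real.log (2 * g i)) ^ 16 *
          min ((numCMSubfields (K i) : ℝ) ^ 2 * D i ^ (1 / 4 : ℝ) / √(g i)) (√(g i) / q i)) := by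
  obtain ⟨C, hC0, hC⟩ := countC
  refine ⟨C, hC0, ?_⟩
  intro p _ ν I _ K _ _ _ M n g q D hind hM hn hMn hg hq hD hDF
  exact hC p ν I K M n g q D hind hM hn hMn hg hq hD hDF _
    fun Q f hQ hG => dgStandardDReduces hQ hG

end Pool.Agent.Results.MP_28af06_ag.AllCMTypesDgCategories
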