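import Mathlib
import Pool.Agent.Q64.M.Dg
import Pool.Agent.Q64.L.InstA

/-!
# The noncommutative standard conjecture D for the tensor products of arbitrary dg categories with
almost all abelian varieties

Let `g i` (`i` in a finite set `I`) be positive integers, `r` an integer smaller than all the `g i`
and `E` a number field.  For a prime power `q` let `S i` be the set of the characteristic
polynomials of Frobenius of the ordinary abelian varieties of dimension `g i` over the field with
`q` elements, or of all abelian varieties of dimension `g i`, or any set in between.  By Weil,
Honda and Tate its elements correspond to the isogeny classes, the first set contains
`ordinaryWeilPolys q (g i)`, and the second one is contained in `weilPolys q (g i)`.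

For almost all families `f i` in `S i` (`AlmostAll`: with the exception of a proportion
`O (q ^ (-1 / 6) log q)`, the constant depending only on `g`, `r` and `E`) the following holds for
all `s > 0`, `Q = q ^ s`, and all abelian varieties `A` over the field with `Q` elements which are
isogenous to products of powers of abelian varieties coming from the field with `q` elements, with
characteristic polynomials `f i`, and let `ℰ` be **any** smooth proper dg category over the field
with `Q` elements such that the eigenvalues of the cyclotomic Frobenius on `TP_0(ℰ)` and `TP_1(ℰ)`
(with `p` inverted) are algebraic numbers, and they and their conjugates generate a group of rank
at most `r` modulo the group of the numbers with a power in `E` (for `r = 0`: they have powers in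
`E`).

**The noncommutative standard conjecture of type D (the assertion of Q1) is true for `perf(A) ⊗ ℰ`
if and only if it is true for `ℰ`.** More precisely, `K_0(perf(A) ⊗ ℰ)_ℚ` modulo homological
equivalence is the direct sum of the products of finitely many products of divisors on `A` with
`K_0(ℰ)_ℚ` modulo homological equivalence. For instance, the assertion is true for `perf(A) ⊗ ℰ` if
`ℰ` has a full exceptional collection, or if `TP_0(ℰ)` is spanned by classes of objects.

In the starting files there are theorems of this kind for the dg categories whose noncommutative
motive is a direct summand of the motive of a smooth projective variety; they use the Frobenius
endomorphism of this variety. A general smooth proper dg category has no Frobenius endomorphism: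
the cyclotomic Frobenius is not induced by an endomorphism of `ℰ`. Here only the Frobenius
endomorphism of `A` is used, and `ℰ` is arbitrary.

What is used of `A` are known theorems (`IsAbelian`): `H(A)` is generated by `H^1`, Frobenius is
diagonalizable on `H^1` (Weil), the theorem of Tate on divisors, and the nilpotence of
homologically trivial correspondences (Kimura). The topological periodic cyclic homology `R` of `ℰ`
and `perf(A) ⊗ ℰ` is modelled by `RelData`: the groups of bidegree `(i, j)` are `TP_(2 j - i)(ℰ)`
and `TP_(2 j - i)(perf(A) ⊗ ℰ)`, with `p` inverted (the first part of this group, for the dg
category of a variety `X`, is `H^i(X)(j)`). The formal properties in `IsRel`: the product with a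
class of codimension `c` on `A` (an element of `K_0(A)_ℚ = CH(A)_ℚ`) has the bidegree `(2 c, c)`;
the push-forward to `ℰ`, the projection formula and the operation of the correspondences of `A`.
The operator `frobN` is `Q ^ j` times the cyclotomic Frobenius of `ℰ`, and `frobM` is `Q ^ j` times
the cyclotomic Frobenius of `perf(A) ⊗ ℰ`, composed with the inverse of the operation of the
Frobenius endomorphism of `A`. So the elements in `InvN`, `InvM` of bidegree `(2 j, j)` are the
elements of `TP_0` which are fixed by the cyclotomic Frobenius. The theory `T` is `K_0` modulo
homological equivalence, in all the bidegrees `(2 j, j)`, with the injective map to `R`
(`IsCycles`), and `B` is the Euler pairing, for which the rules in `IsEulerPairing` hold.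

The proof: by a sieve (helper521), which only uses the primes that split completely in the Galois
closure of `E` - these have positive density by the theorem of Chebotarev, formalized by helper401
- almost all families are such that each pair `α`, `q / α` of roots can be exchanged by a Galois
automorphism which fixes all the other roots of all the `f i` and also all elements of `E`. It
follows that, on the generalized eigenspace of Frobenius for the power of `Q` in question in the
cohomology or homology of the product of `A` with the other factor, the correspondence on `A` given
by the sum of the products of dual classes of products of divisors acts as the identity: the
Frobenius endomorphism of `A` satisfies there a power of the polynomial reciprocal to that of the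
Frobenius on the other factor, this polynomial is prime to the one whose value on `H(A)` lies in
the part generated by divisors, and the difference of the two correspondences is nilpotent. So the
elements of `TP_0(perf(A) ⊗ ℰ)` which are fixed by the cyclotomic Frobenius, and the classes of the
objects of `perf(A) ⊗ ℰ`, are the direct sums of the products of finitely many products of divisors
on `A` with those of `ℰ`, and the Euler pairings correspond, up to the signs in the rules.
-/

set_option autoImplicit false

namespace Pool.Agent.Results.MP_28af06_ag.AlmostAllDgCategories

open Pool.Agent.Y156.L Pool.Agent.Q64.L Pool.Agent.Q64.M

/-- **The noncommutative standard conjecture D holds for `perf(A) ⊗ ℰ` if and only if it holds for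
`ℰ`, for almost all abelian varieties `A` and all dg categories of small Frobenius rank.** -/
theorem result {I : Type} [Fintype I] (g : I → ℕ) (r : ℕ) (hr : ∀ i, r < g i)
    (E : IntermediateField ℚ ℂ) [FiniteDimensional ℚ E] :
    AlmostAll g fun q F => DgStandardDReduces (RootsRank E r) q F :=
  countA g r hr E (fun q F => DgStandardDReduces (RootsRank E r) q F)
    fun _ _ hq hG => dgStandardDReduces hq hG

end Pool.Agent.Results.MP_28af06_ag.AlmostAllDgCategories
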