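import Mathlib
import Pool.Agent.Q64.N.Main
import Pool.Agent.Q64.M.Dg

/-!
# The noncommutative standard conjecture of type D for the products of dg categories with abelian
varieties: Newton strata

Fix a prime number `p` and a nonempty finite set `κ`. For `i` in `κ` let `g i` be a dimension and
let `sl i j`, `j < g i`, be rational numbers between `0` and `1 / 2` such that the `sl i j` and
`1 - sl i j` are the slopes of a symmetric Newton polygon with integral break points (`IsNewton`)
which is not the supersingular one, that is `sl i j < 1 / 2` for some `j`. Let `r` be an integer
smaller than all the `g i`, and let `E` be a number field. By the theorem of Honda and Tate,
`Stratum g sl p a` is the set of the families of isogeny classes of abelian varieties of dimensions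
`g i` over the field with `q = p ^ a` elements with these Newton polygons; it consists of the
families `f i` of the characteristic polynomials of Frobenius.

As `a → ∞`, the number of the families in `Stratum g sl p a` tends to infinity, and **the
proportion of those families for which the following is true tends to one**: for all `N` and
`ε > 0` there is an `a₀` such that for `a ≥ a₀` there are at least `N` families, and at most `ε`
times their number are exceptions.

Let `A` be an abelian variety over the field with `Q = q ^ s` elements, `s > 0`, which is isogenous
to a product of powers of abelian varieties coming from the field with `q` elements, with
characteristic polynomials `f i`, and let `ℰ` be **any** smooth proper dg category over the field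
with `Q` elements such that the eigenvalues `ρ` of the cyclotomic Frobenius on `TP_0(ℰ)` and
`TP_1(ℰ)` (with `p` inverted) are algebraic numbers, and they and their conjugates are in a group
of rank at most `r` over `E` (`RootsRank`): there are nonzero numbers `u 1, ..., u r` such that
each `ρ` has a power which is the product of a nonzero element of `E` and of integral powers of
`u 1, ..., u r`.

**The noncommutative standard conjecture of type D (the assertion of Q1) is true for `perf(A) ⊗ ℰ`
if and only if it is true for `ℰ`.** More precisely, `K_0(perf(A) ⊗ ℰ)_ℚ` modulo homological
equivalence is the direct sum of the products of finitely many products of divisors on `A` with
`K_0(ℰ)_ℚ` modulo homological equivalence. For instance, the assertion is true for `perf(A) ⊗ ℰ` if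
`ℰ` has a full exceptional collection, or if `TP_0(ℰ)` is spanned by classes of objects.

There are theorems of this kind for the dg categories whose noncommutative motive is a direct
summand of the motive of a smooth projective variety; they use the Frobenius endomorphism of this
variety. A general smooth proper dg category has no Frobenius endomorphism: the cyclotomic
Frobenius is not induced by an endomorphism of `ℰ`. Here only the Frobenius endomorphism of `A` is
used, and `ℰ` is arbitrary.

What is used of `A` are known theorems (`IsAbelian`): `H(A)` is generated by `H^1`, Frobenius is
diagonalizable on `H^1` (Weil), the theorem of Tate on divisors, and the nilpotence of
homologically trivial correspondences (Kimura). The topological periodic cyclic homology `R` of `ℰ`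
and `perf(A) ⊗ ℰ` is modelled by `RelData`: the groups of bidegree `(i, j)` are `TP_(2 j - i)(ℰ)`
and `TP_(2 j - i)(perf(A) ⊗ ℰ)`, with `p` inverted (the first part of this group, for the dg
category of a variety `X`, is `H^i(X)(j)`). The formal properties in `IsRel`: the product with a
class of codimension `c` on `A` (an element of `K_0(A)_ℚ = CH(A)_ℚ`) has the bidegree `(2 c, c)`;
the push-forward to `ℰ`, the projection formula and the operation of the correspondences of `A`.
The operator `frobN` is `Q ^ j` times the cyclotomic Frobenius of `ℰ`, and `frobM` is `Q ^ j` times
the cyclotomic Frobenius of `perf(A) ⊗ ℰ`, composed with the inverse of the operation of the
Frobenius endomorphism of `A`. So the elements in `InvN`, `InvM` of bidegree `(2 j, j)` are the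
elements of `TP_0` which are fixed by the cyclotomic Frobenius. The theory `T` is `K_0` modulo
homological equivalence, in all the bidegrees `(2 j, j)`, with the injective map to `R`
(`IsCycles`), and `B` is the Euler pairing, for which the rules in `IsEulerPairing` hold.

For `r = 0` the assumption on the eigenvalues says that they and their conjugates have powers in
`E`. If for instance a factor of this kind over the field with `q' = p ^ b` elements is given, one
can take for `E` the field generated by the Frobenius eigenvalues and their conjugates, and apply
the theorem to the fields with `q = p ^ a` elements, `b | a`. A supersingular abelian variety may
always be added to the other factor.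

Relation to other results. `AlmostAllDgCategories` (this folder) is about almost all abelian
varieties of given dimensions. Almost all of these are ordinary, and each other Newton polygon
belongs to a proportion of the isogeny classes which tends to zero; so that theorem says nothing
about any Newton polygon which is not ordinary. Here the characteristic and the Newton polygons are
given: for instance one obtains almost all those abelian varieties of a given dimension at least
three, over the fields of characteristic `p`, which have `p`-rank zero and are not supersingular.
`AllCMTypesDgCategories` and `SmallSlopeDeviation` (this folder) are about abelian varieties with
given fields. The count of the families in a stratum is that of helper518 (`NewtonStrata`,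
MP_ee618e_ag, where it is applied to the Tate conjecture for the products of the abelian varieties
in the stratum and supersingular ones).

The proof. The elements of the stratum correspond to integral points in a box whose sides tend to
infinity: the coefficients of the trace polynomials, divided by the powers of `p` prescribed by the
Newton polygons (helper518). We apply the sieve only with primes which split completely in the
Galois closure of `E`; there are infinitely many (Chebotarev, formalized by helper401). So for
almost all families the trace polynomials are irreducible, and each pair `α`, `q / α` of roots can
be exchanged by a Galois automorphism which fixes all the other roots of all the `f i` and all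
elements of `E`. No root is supersingular, as some slope is smaller than `1 / 2`. A multiplicative
relation between `ρ`, a power of `q` and roots of the `f i`, other than those which follow from
`α (q / α) = q`, expresses some power of `α ^ 2 / q`, for all roots `α` of one `f i`, by conjugates
of `ρ`; by the automorphisms above these `g i > r` numbers are multiplicatively independent, also
modulo `E`, which is a contradiction. It follows that, on the generalized eigenspace of Frobenius
for the power of `Q` in question in the cohomology or homology of the product of `A` with the other
factor, the correspondence on `A` given by the sum of the products of dual classes of products of
divisors acts as the identity: the Frobenius endomorphism of `A` satisfies there a power of the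
polynomial reciprocal to that of the Frobenius on the other factor, this polynomial is prime to the
one whose value on `H(A)` lies in the part generated by divisors, and the difference of the two
correspondences is nilpotent. So the elements of `TP_0(perf(A) ⊗ ℰ)` which are fixed by the
cyclotomic Frobenius, and the classes of the objects of `perf(A) ⊗ ℰ`, are the direct sums of the
products of finitely many products of divisors on `A` with those of `ℰ`, and the Euler pairings
correspond, up to the signs in the rules.
-/

set_option autoImplicit false

namespace Pool.Agent.Results.MP_28af06_ag.NewtonStrata

open Polynomial Pool.Agent.Q64.P Pool.Agent.Q64.N Pool.Agent.Q64.M
open Pool.Agent.Q64.L (RootsRank)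

/-- **Homological and numerical equivalence coincide for `perf(A) × E` if and only if they coincide
for `E`, for all smooth proper dg categories `E` whose Frobenius eigenvalues and their conjugates
are of rank at most `r` over `E`, for almost all families of abelian varieties in each Newton
stratum over the fields of characteristic `p`.** -/
theorem result {κ : Type} [Fintype κ] [Nonempty κ] (p : ℕ) [Fact p.Prime]
    -- dimensions and Newton polygons
    (g : κ → ℕ) (sl : ∀ i, Fin (g i) → ℚ) (hsl : ∀ i, IsNewton (sl i))
    (hss : ∀ i, ∃ j, sl i j < 1 / 2)
    -- the rank and the number field
    (r : ℕ) (hr : ∀ i, r < g i) (E : IntermediateField ℚ ℂ) [FiniteDimensional ℚ E]
    -- a number of families, a proportion of exceptions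
    (N : ℕ) (ε : ℝ) (hε : 0 < ε) :
    ∃ a₀ : ℕ, ∀ a, a₀ ≤ a →
      (Stratum g sl p a).Finite ∧ N ≤ (Stratum g sl p a).ncard ∧
      ({f ∈ Stratum g sl p a | ¬ DgStandardDReduces (RootsRank E r) (p ^ a) f}.ncard : ℝ) ≤
        ε * ((Stratum g sl p a).ncard : ℝ) :=
  strata p g sl hsl hss r hr E (fun a f => DgStandardDReduces (RootsRank E r) (p ^ a) f)
    (fun _ _ _ hq hG => dgStandardDReduces hq hG) N ε hε

end Pool.Agent.Results.MP_28af06_ag.NewtonStrata
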