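import Mathlib
import Pool.Agent.Q64.P.Good
import Pool.Agent.Q64.M.Dg

/-!
# The noncommutative standard conjecture of type D for the products of dg categories with abelian
varieties: small slope deviations

Let `q = p ^ a`, let `F i` (`i` in a finite set) be CM fields and `π i` a Weil number for `q` in
`F i`, and let `f i` be monic polynomials whose complex roots are conjugates of `π i` (`IsPolyOf`),
for instance the characteristic polynomials of Frobenius of the abelian varieties in the isogeny
class of `π i` over the field with `q` elements. We suppose that

* the functions `n` on the complex embeddings of `F i` with `n (conj φ) = - n φ` are an absolutely
  irreducible representation of the automorphisms of `ℂ` (`OddAbsolutelyIrreducible`), and there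
  are no equivariant maps between those of `F i` and `F i'` for `i ≠ i'` (`Unrelated`). This is the
  generic case; the first condition is true, for example, if the Galois group of the normal closure
  of `F i` consists of all permutations of the embeddings compatible with the complex conjugation,
  or if only some automorphism exchanges one embedding with its complex conjugate and fixes all the
  others;
* no `π i` is supersingular (`HasOtherSlope`).

Let `A` be an abelian variety over the field with `Q = q ^ s` elements which is isogenous to a
product of powers of abelian varieties coming from the field with `q` elements, with characteristic
polynomials `f i`, and let `ℰ` be **any** smooth proper dg category over the field with `Q`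
elements such that the eigenvalues `ρ` of the cyclotomic Frobenius on `TP_0(ℰ)` and `TP_1(ℰ)` (with
`p` inverted) are algebraic numbers, and they and their conjugates are good (`GoodRoots`): for each
`i`, `ρ` is unrelated to `F i` (`UnrelatedTo`: a function `n` on the embeddings of `F i` with
`n (conj φ) = - n φ` which is invariant under all automorphisms of `ℂ` that fix a power of `ρ` is
zero), **or** `d (ρ) < d (π i)`, **or** the weight of `ρ` is even and `d (ρ) < d (π i) + d (π i')`
for all `i'` (`SmallDeviation`). Here `d (ρ)` is the mean of `(log |x| + log |ρ|) ^ 2` over all
`p`-adic conjugates `x` of `ρ` (`deviation`), that is `(log q) ^ 2` times the mean square deviation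
of the slopes of `ρ` from half of its weight, and `d (π i) = (log q) ^ 2 / 4` if `π i` is ordinary
(second part of the theorem).

**The noncommutative standard conjecture of type D (the assertion of Q1) is true for `perf(A) ⊗ ℰ`
if and only if it is true for `ℰ`.** More precisely, `K_0(perf(A) ⊗ ℰ)_ℚ` modulo homological
equivalence is the direct sum of the products of finitely many products of divisors on `A` with
`K_0(ℰ)_ℚ` modulo homological equivalence. For instance, the assertion is true for `perf(A) ⊗ ℰ` if
`ℰ` has a full exceptional collection, or if `TP_0(ℰ)` is spanned by classes of objects.

In the starting files there are theorems of this kind for the dg categories whose noncommutative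
motive is a direct summand of the motive of a smooth projective variety; they use the Frobenius
endomorphism of this variety. A general smooth proper dg category has no Frobenius endomorphism:
the cyclotomic Frobenius is not induced by an endomorphism of `ℰ`. Here only the Frobenius
endomorphism of `A` is used, and `ℰ` is arbitrary.

What is used of `A` are known theorems (`IsAbelian`): `H(A)` is generated by `H^1`, Frobenius is
diagonalizable on `H^1` (Weil), the theorem of Tate on divisors, and the nilpotence of
homologically trivial correspondences (Kimura). The topological periodic cyclic homology `R` of `ℰ`
and `perf(A) ⊗ ℰ` is modelled by `RelData`: the groups of bidegree `(i, j)` are `TP_(2 j - i)(ℰ)`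
and `TP_(2 j - i)(perf(A) ⊗ ℰ)`, with `p` inverted (the first part of this group, for the dg
category of a variety `X`, is `H^i(X)(j)`). The formal properties in `IsRel`: the product with a
class of codimension `c` on `A` (an element of `K_0(A)_ℚ = CH(A)_ℚ`) has the bidegree `(2 c, c)`;
the push-forward to `ℰ`, the projection formula and the operation of the correspondences of `A`.
The operator `frobN` is `Q ^ j` times the cyclotomic Frobenius of `ℰ`, and `frobM` is `Q ^ j` times
the cyclotomic Frobenius of `perf(A) ⊗ ℰ`, composed with the inverse of the operation of the
Frobenius endomorphism of `A`. So the elements in `InvN`, `InvM` of bidegree `(2 j, j)` are the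
elements of `TP_0` which are fixed by the cyclotomic Frobenius. The theory `T` is `K_0` modulo
homological equivalence, in all the bidegrees `(2 j, j)`, with the injective map to `R`
(`IsCycles`), and `B` is the Euler pairing, for which the rules in `IsEulerPairing` hold.

Examples, for `s = 1` and ordinary `π i`. All `ρ` of even weight `2 v` with slopes between
`v - 1 / √2` and `v + 1 / √2` are good, and all `ρ` of any weight `w` with slopes between
`(w - 1) / 2` and `(w + 1) / 2`. In general all `ρ` of weight `2 v` are good whose degree over `ℚ`
is more than `2 ∑ (s - v) ^ 2`, the sum over the slopes `s` of all conjugates; for the second
cohomology of a surface of geometric genus `g` the Newton polygon lies above the Hodge polygon, and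
it is sufficient that `ρ` is `q` times a root of unity or has degree more than `4 g` (more than
four for K3 surfaces). The conditions of this kind do not exclude any relation between `A` and the
other factor: `ℚ(ρ)` may be contained in a field `F i`, or in its Galois closure.

Relation to other results. `AllCMTypesDgCategories` (this folder) is the theorem for the abelian
varieties of almost all slope types of all CM fields, if all eigenvalues of Frobenius on the other
factor are unrelated to the fields. New here are the second and the third alternative, and the
theorem is about each single abelian variety with absolutely irreducible fields. The criterion for
slopes is the one of `SmallSlopeDeviation` (MP_0f183b_ag, helper70), where it is applied to the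
Tate conjecture.

The proof. A multiplicative relation between `ρ`, a power of `q` and a product of conjugates of the
`π i` gives, for each automorphism `σ` of a Galois closure, the linear relation
`s (σ ρ) - w / 2 = ∑ x, n x (s (σ x) - 1 / 2)` between slopes, up to signs, where the sum is over
one embedding `x` of each conjugate pair and `n x` is the difference of the multiplicities of `x`
and of its conjugate. The second moments of the slopes are an invariant form on the odd functions;
it is real valued, but all its compositions with rational functionals are rational invariant forms,
and so the slopes at different pairs are uncorrelated, by Schur's lemma. Hence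
`d (ρ) = ∑ x, (n x) ^ 2 d (π x)`. If the weight of `ρ` is even, so is the sum of all
multiplicities, and a single `n x = ± 1` is impossible. So all `n x` are zero (`noRel_good`, by
helper70). It follows that, on the generalized eigenspace of Frobenius for the power of `Q` in
question in the cohomology or homology of the product of `A` with the other factor, the
correspondence on `A` given by the sum of the products of dual classes of products of divisors acts
as the identity: the Frobenius endomorphism of `A` satisfies there a power of the polynomial
reciprocal to that of the Frobenius on the other factor, this polynomial is prime to the one whose
value on `H(A)` lies in the part generated by divisors, and the difference of the two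
correspondences is nilpotent. So the elements of `TP_0(perf(A) ⊗ ℰ)` which are fixed by the
cyclotomic Frobenius, and the classes of the objects of `perf(A) ⊗ ℰ`, are the direct sums of the
products of finitely many products of divisors on `A` with those of `ℰ`, and the Euler pairings
correspond, up to the signs in the rules.
-/

set_option autoImplicit false

namespace Pool.Agent.Results.MP_28af06_ag.SmallSlopeDeviation

open NumberField Module Polynomial Pool.Agent.Y137.MV Pool.Agent.Y137.SL Pool.Agent.Y1.CT
  Pool.Agent.Q70.SQ Pool.Agent.Q64.P Pool.Agent.Q64.M

/-- **Homological and numerical equivalence coincide for `perf(A) × E` if and only if they coincide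
for `E`, for the abelian varieties `A` over finite fields with absolutely irreducible, unrelated CM
fields and no supersingular part, and all smooth proper dg categories `E` each of whose Frobenius
eigenvalues is unrelated to these fields or has small mean square slope deviation.** -/
theorem result :
    (∀ (p : ℕ) [Fact p.Prime] (a : ℕ) (I : Type) [Fintype I] (F : I → Type)
      [∀ i, Field (F i)] [∀ i, NumberField (F i)] [∀ i, IsCMField (F i)] (π : ∀ i, F i)
      (f : I → ℤ[X]), 0 < a →
      (∀ i, π i * IsCMField.complexConj (F i) (π i) = (p : F i) ^ a) →
      (∀ i, OddAbsolutelyIrreducible (F i)) →
      (∀ i i', i ≠ i' → Pool.Agent.Y137.MV.Unrelated (F i) (F i')) →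
      (∀ i, HasOtherSlope p a (π i)) → (∀ i, IsPolyOf (π i) (f i)) →
      DgStandardDReduces (GoodRoots p a π) (p ^ a) f) ∧
    (∀ (p : ℕ) [Fact p.Prime] (a : ℕ) (F : Type) [Field F] [NumberField F] (π : F),
      IsOrdinary p a π → weilDeviation p a π = (a * Real.log p) ^ 2 / 4) := by
  refine ⟨?_, ?_⟩
  · intro p _ a I _ F _ _ _ π f ha hw habs hun hns hf
    exact dgStandardDReduces (Nat.one_lt_pow ha.ne' (Fact.out : p.Prime).one_lt)
      (good_small ha hw habs hun hns f hf)
  · intro p _ a F _ _ π h
    exact weilDeviation_ordinary h

end Pool.Agent.Results.MP_28af06_ag.SmallSlopeDeviation
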